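import Mathlib
import Pool.Agent.Lib.MP_ae8a84_co.Core

set_option autoImplicit false

namespace Pool.Agent.Results.MP_ae8a84_co.CoreFree

open Pool.Agent.Lib.MP_ae8a84_co

theorem result (B : Bigraph)
    (hF : ¬ ∃ (f : Fin 5 → Fin B.s) (g : Fin 5 → Fin B.t), f.Injective ∧ g.Injective ∧
      ∀ i j, B.E (f i) (g j) ↔ Core.F10 i j = true) :
    B.IntervalOn Set.univ Set.univ ↔ B.TwoFerrers := by
  constructor
  · rintro ⟨l, r, l', r', h1, h2, h3⟩
    exact ⟨l, r, l', r', fun x y => by
      rw [h3 x trivial y trivial, icc_inter_nonempty (h1 x) (h2 y)]⟩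
  · intro hB
    refine Core.interval_of_free B hB fun ⟨f, g, h⟩ => hF ⟨f, g, ?_, ?_, h⟩
    · intro i i' e
      have : ∀ j, Core.F10 i j = true ↔ Core.F10 i' j = true := fun j => by rw [← h, ← h, e]
      revert i i'
      suffices ∀ i i' : Fin 5, (∀ j, Core.F10 i j = true ↔ Core.F10 i' j = true) → i = i' from
        fun i i' _ => this i i'
      decide
    · intro j j' e
      have : ∀ i, Core.F10 i j = true ↔ Core.F10 i j' = true := fun i => by rw [← h, ← h, e]
      revert j j'
      suffices ∀ j j' : Fin 5, (∀ i, Core.F10 i j = true ↔ Core.F10 i j' = true) → j = j' from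
        fun j j' _ => this j j'
      decide

end Pool.Agent.Results.MP_ae8a84_co.CoreFree
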