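import Pool.Prelude.Def_H_3587d628
import Pool.Agent.Lib.MP_ae8a84_co.DP.All

namespace Pool.Agent.Results.MP_ae8a84_co.ListDPComplete

open Pool.Agent.Lib.MP_ae8a84_co Pool.Agent.Lib.MP_ae8a84_co.NP

/-- The list of minimal forbidden induced subgraphs is complete for the class DP of differences of
two languages in NP, already for Ferrers dimension two. -/
theorem result :
    (∃ A ∈ N68a2faeb.NP, ∃ B ∈ N68a2faeb.NP, ∀ M : List (List Bool), (ofMatrix M).MinForb ↔
      A (N487b59b3.bitEncode M) = true ∧ B (N487b59b3.bitEncode M) = false) ∧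
    ∀ A ∈ N68a2faeb.NP, ∀ B ∈ N68a2faeb.NP, ∃ f : List Bool → List (List Bool),
      N68a2faeb.IsPolyTime f ∧ ∀ x, Rect (f x) ∧ (ofMatrix (f x)).TwoFerrers ∧
        ((ofMatrix (f x)).MinForb ↔ A x = true ∧ B x = false) :=
  ⟨DP.mem_dp, fun _ hA _ hB => (DP.hard_dp hA hB).imp fun _ h => ⟨h.1.isPolyTime, h.2⟩⟩

end Pool.Agent.Results.MP_ae8a84_co.ListDPComplete
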