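import Pool.Prelude.Def_H_3587d628
import Pool.Agent.Lib.MP_ae8a84_co.NP.Mem

namespace Pool.Agent.Results.MP_ae8a84_co.NPComplete

open Pool.Agent.Lib.MP_ae8a84_co Pool.Agent.Lib.MP_ae8a84_co.NP

/-- Recognition of interval bigraphs is NP-complete, already for Ferrers dimension two. -/
theorem result :
    (∃ L ∈ N68a2faeb.NP, ∀ M : List (List Bool),
      L (N487b59b3.bitEncode M) = true ↔ (ofMatrix M).IntervalOn Set.univ Set.univ) ∧
    ∀ L ∈ N68a2faeb.NP, ∃ f : List Bool → List (List Bool), N68a2faeb.IsPolyTime f ∧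
      ∀ x, Rect (f x) ∧ (ofMatrix (f x)).TwoFerrers ∧
        (L x = true ↔ (ofMatrix (f x)).IntervalOn Set.univ Set.univ) :=
  ⟨mem_np, fun _ hL => (hard hL).imp fun _ h => ⟨h.1.isPolyTime, h.2⟩⟩

end Pool.Agent.Results.MP_ae8a84_co.NPComplete
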