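import Pool.Agent.Lib.MP_ae8a84_co.Loc.Main

namespace Pool.Agent.Results.MP_ae8a84_co.NoLocalLogic

open Pool.Agent.Lib.MP_ae8a84_co

/-- For every `k` some minimal forbidden induced subgraph of polynomial size cannot be told from
an interval bigraph by existential infinitary sentences with `k` variables. -/
theorem result (k : ℕ) : ∃ M B : Bigraph, M.MinForb ∧ M.TwoFerrers ∧
    B.IntervalOn Set.univ Set.univ ∧ M.s + M.t ≤ (60 * (k + 1)) ^ 6 ∧
    B.s + B.t ≤ (60 * (k + 1)) ^ 6 ∧
    ∀ φ : Fm k, φ.Holds M → φ.Holds B :=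
  Loc.main k

end Pool.Agent.Results.MP_ae8a84_co.NoLocalLogic
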